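import Pool.Agent.HL54.Defs

set_option autoImplicit false

open FirstOrder Cardinal

universe u

namespace Pool.Agent.HE54

open Pool.Agent.HL54

variable {L : FirstOrder.Language.{u, u}}

/-- The Löwenheim–Skolem hull inside a strong substructure. -/
theorem exists_hullS (K : AEC L) {κ : Cardinal.{u}}
    (hLS : ∀ (M : Type u) [L.Structure M], K.mem M → ∀ A : Set M,
      ∃ S : L.Substructure M, A ⊆ (S : Set M) ∧ K.le M S ∧ #S ≤ #A + κ)
    (M : Type u) [L.Structure M] (S : L.Substructure M) (hS : K.le M S) (A : Set M) :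
    ∃ T : L.Substructure M, A ∩ (S : Set M) ⊆ (T : Set M) ∧ T ≤ S ∧ K.le M T ∧
      #T ≤ #A + κ := by
  obtain ⟨T', hA, hT', hc⟩ := hLS S (K.mem_of_le M S hS).2 ((Subtype.val : S → M) ⁻¹' A)
  have hinj : Function.Injective (S.subtype.toHom : S →[L] M) := Subtype.val_injective
  have hle : T'.map S.subtype.toHom ≤ S := by
    intro x hx
    obtain ⟨y, -, rfl⟩ := Language.Substructure.mem_map.1 hx
    exact y.2
  refine ⟨T'.map S.subtype.toHom, ?_, hle, ?_, ?_⟩
  · rintro x ⟨hxA, hxS⟩
    exact Language.Substructure.mem_map.2 ⟨⟨x, hxS⟩, hA hxA, rfl⟩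
  · refine K.le_trans M S _ hle ?_ hS
    rw [Language.Substructure.comap_map_eq_of_injective hinj]
    exact hT'
  · have h1 : #(T'.map S.subtype.toHom) ≤ #T' := by
      have : ((T'.map S.subtype.toHom : L.Substructure M) : Set M) =
          (S.subtype.toHom : S →[L] M) '' (T' : Set S) := by
        ext y
        exact Language.Substructure.mem_map
      calc #(T'.map S.subtype.toHom)
          = #(((T'.map S.subtype.toHom : L.Substructure M) : Set M)) := rfl
        _ = #((S.subtype.toHom : S →[L] M) '' (T' : Set S)) := by rw [this]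
        _ ≤ #(T' : Set S) := mk_image_le
        _ = #T' := rfl
    refine h1.trans (hc.trans ?_)
    exact add_le_add_left (mk_preimage_of_injective _ _ Subtype.val_injective) _

section Rec

variable {M : Type u} [L.Structure M] {ι : Type u} [LinearOrder ι] [WellFoundedLT ι]

open Classical in
/-- One step of the recursion. -/
noncomputable def step (hull hullS : Set M → L.Substructure M) (m : ι → M) (i : ι)
    (f : ∀ j, j < i → L.Substructure M × L.Substructure M) :
    L.Substructure M × L.Substructure M :=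
  if Order.IsSuccLimit i then
    (⨆ j : Set.Iio i, (f j.1 j.2).1, ⨆ j : Set.Iio i, (f j.1 j.2).2)
  else
    (hull (((⋃ j : Set.Iio i, ((f j.1 j.2).1 : Set M)) ∪ m '' Set.Iic i) ∪
      (hullS ((⋃ j : Set.Iio i, ((f j.1 j.2).2 : Set M)) ∪ m '' Set.Iic i) : Set M)),
     hullS ((⋃ j : Set.Iio i, ((f j.1 j.2).2 : Set M)) ∪ m '' Set.Iic i))

/-- The chain of pairs. -/
noncomputable def ch (hull hullS : Set M → L.Substructure M) (m : ι → M) (i : ι) :
    L.Substructure M × L.Substructure M :=
  (IsWellFounded.wf (r := ((· < ·) : ι → ι → Prop))).fix (step hull hullS m) i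

theorem ch_eq (hull hullS : Set M → L.Substructure M) (m : ι → M) (i : ι) :
    ch hull hullS m i = step hull hullS m i (fun j _ => ch hull hullS m j) := by
  unfold ch
  rw [WellFounded.fix_eq]

theorem ch_lim (hull hullS : Set M → L.Substructure M) (m : ι → M) {i : ι}
    (hi : Order.IsSuccLimit i) :
    ch hull hullS m i = (⨆ j : Set.Iio i, (ch hull hullS m j.1).1,
      ⨆ j : Set.Iio i, (ch hull hullS m j.1).2) := by
  rw [ch_eq, step, if_pos hi]

theorem ch_snd (hull hullS : Set M → L.Substructure M) (m : ι → M) {i : ι}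
    (hi : ¬ Order.IsSuccLimit i) :
    (ch hull hullS m i).2 =
      hullS ((⋃ j : Set.Iio i, ((ch hull hullS m j.1).2 : Set M)) ∪ m '' Set.Iic i) := by
  rw [ch_eq, step, if_neg hi]

theorem ch_fst (hull hullS : Set M → L.Substructure M) (m : ι → M) {i : ι}
    (hi : ¬ Order.IsSuccLimit i) :
    (ch hull hullS m i).1 =
      hull (((⋃ j : Set.Iio i, ((ch hull hullS m j.1).1 : Set M)) ∪ m '' Set.Iic i) ∪
        ((ch hull hullS m i).2 : Set M)) := by
  rw [ch_snd _ _ _ hi]
  conv_lhs => rw [ch_eq, step, if_neg hi]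

end Rec

/-- A continuous chain of strong substructures: the member at a limit is strong. -/
theorem le_of_limit (K : AEC L) {M : Type u} [L.Structure M] {ι : Type u} [LinearOrder ι]
    [WellFoundedLT ι] (N : ι → L.Substructure M) (i : ι) (hi : Order.IsSuccLimit i)
    (hmono : ∀ j k, j ≤ k → k < i → N j ≤ N k)
    (hle : ∀ j, j < i → K.le M (N j))
    (hlim : ∀ j, j ≤ i → Order.IsSuccLimit j → (N j : Set M) = ⋃ k ∈ Set.Iio j, (N k : Set M)) :
    K.le M (N i) := by
  have : Nonempty (Set.Iio i) := by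
    have := hi.not_isMin
    rw [not_isMin_iff] at this
    obtain ⟨b, hb⟩ := this
    exact ⟨⟨b, hb⟩⟩
  refine K.smooth M (Set.Iio i) (fun j => N j.1) ?_ ?_ ?_ (N i) ?_
  · intro j k hjk
    have h1 : N j.1 ≤ N k.1 := hmono j.1 k.1 hjk k.2
    exact ⟨h1, K.coherence M _ _ h1 (hle _ k.2) (hle _ j.2)⟩
  · intro j hj
    have hj' : Order.IsSuccLimit (j : ι) := by
      refine ⟨?_, ?_⟩
      · intro hmin
        apply hj.not_isMin
        intro b hb
        exact hmin hb
      · intro b hb
        refine hj.isSuccPrelimit ⟨b, lt_trans hb.1 j.2⟩ ⟨hb.1, ?_⟩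
        intro c hc1 hc2
        exact hb.2 hc1 hc2
    show ((N j.1 : L.Substructure M) : Set M) = _
    rw [hlim j.1 (le_of_lt j.2) hj']
    ext x
    simp only [Set.mem_iUnion, Set.mem_Iio, SetLike.mem_coe]
    constructor
    · rintro ⟨k, hk, hx⟩
      exact ⟨⟨k, lt_trans hk j.2⟩, hk, hx⟩
    · rintro ⟨k, hk, hx⟩
      exact ⟨k.1, hk, hx⟩
  · intro j
    exact hle _ j.2
  · rw [hlim i le_rfl hi]
    ext x
    simp only [Set.mem_iUnion, Set.mem_Iio, SetLike.mem_coe]
    constructor
    · rintro ⟨k, hk, hx⟩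
      exact ⟨⟨k, hk⟩, hx⟩
    · rintro ⟨k, hx⟩
      exact ⟨k.1, k.2, hx⟩

/-- The supremum at a limit is the union. -/
theorem iSup_eq_union {M : Type u} [L.Structure M] {ι : Type u} [LinearOrder ι]
    (N : ι → L.Substructure M) (i : ι) (hi : Order.IsSuccLimit i)
    (hmono : ∀ j k, j ≤ k → k < i → N j ≤ N k) :
    ((⨆ j : Set.Iio i, N j.1 : L.Substructure M) : Set M) = ⋃ k ∈ Set.Iio i, (N k : Set M) := by
  have : Nonempty (Set.Iio i) := by
    have := hi.not_isMin
    rw [not_isMin_iff] at this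
    obtain ⟨b, hb⟩ := this
    exact ⟨⟨b, hb⟩⟩
  have hdir : Directed (· ≤ ·) (fun j : Set.Iio i => N j.1) := by
    intro j k
    rcases le_total j k with h | h
    · exact ⟨k, hmono _ _ h k.2, le_rfl⟩
    · exact ⟨j, le_rfl, hmono _ _ h j.2⟩
  ext x
  rw [SetLike.mem_coe, Language.Substructure.mem_iSup_of_directed hdir]
  simp only [Set.mem_iUnion, Set.mem_Iio, SetLike.mem_coe]
  constructor
  · rintro ⟨k, hx⟩
    exact ⟨k.1, k.2, hx⟩
  · rintro ⟨k, hk, hx⟩
    exact ⟨⟨k, hk⟩, hx⟩

/-- A union over an initial segment of sets of size `≤ b` where the segment has size `≤ b`. -/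
theorem mk_union_seg {M : Type u} {ι : Type u} [LinearOrder ι] (X : ι → Set M) (i : ι)
    (b : Cardinal.{u}) (hb : ℵ₀ ≤ b) (hi : #(Set.Iio i) ≤ b) (hX : ∀ j, j < i → #(X j) ≤ b) :
    #(⋃ j : Set.Iio i, X j.1) ≤ b := by
  refine (mk_iUnion_le (fun j : Set.Iio i => X j.1)).trans ?_
  have h1 : (⨆ j : Set.Iio i, #(X j.1)) ≤ b := ciSup_le' (fun j => hX j.1 j.2)
  calc #(Set.Iio i) * (⨆ j : Set.Iio i, #(X j.1)) ≤ b * b := mul_le_mul' hi h1
    _ = b := mul_eq_self hb

/-- Resolution of a pair `S ≤_K M` with `|M| > κ ≥ LS(K)` by a continuous chain of smaller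
pairs. Proof: let `ι = (#M).ord.ToType` and `m : ι ≃ M`. Let `hull A` be a strong substructure of
`M` containing `A` of size `≤ #A + κ` (hypothesis `hLS` for `M`), `hullS A` the same inside `S`
(`hLS` for the structure `S`, pushed to `M`; it is strong in `M` by `le_trans`). Define by
well-founded recursion on `i` two sets: at limit `i` (`Order.IsSuccLimit i`) the unions of the
earlier ones, otherwise `P i = hullS ((⋃ j < i, P j) ∪ {m j | j ≤ i} ∩ S)` and
`N i = hull ((⋃ j < i, N j) ∪ {m j | j ≤ i} ∪ P i)`. By induction: strong (at limits by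
`K.smooth` applied to the chain indexed by `Set.Iio i`, coherence gives the chain condition),
increasing, of size `≤ #(Set.Iio i) + κ < #M` (or `< #M` by regularity-free bound
`#(N i) ≤ #(Set.Iic i) * κ`). Unions are everything because `m i ∈ N i` at non-limit `i` and
`m i ∈ N (i+1)` in general (`#M` is infinite, so there is no last element). -/
theorem exists_chain (K : AEC L) {κ : Cardinal.{u}} (hκ : ℵ₀ ≤ κ)
    (hLS : ∀ (M : Type u) [L.Structure M], K.mem M → ∀ A : Set M,
      ∃ S : L.Substructure M, A ⊆ (S : Set M) ∧ K.le M S ∧ #S ≤ #A + κ)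
    (M : Type u) [L.Structure M] (S : L.Substructure M) (hS : K.le M S) (hM : κ < #M) :
    ∃ (ι : Type u) (_ : LinearOrder ι) (_ : WellFoundedLT ι) (_ : Nonempty ι)
      (N P : ι → L.Substructure M),
      (∀ i, K.le M (N i)) ∧ (∀ i, K.le M (P i)) ∧ (∀ i, P i ≤ N i) ∧
      (∀ i j, i ≤ j → N i ≤ N j) ∧ (∀ i j, i ≤ j → P i ≤ P j) ∧
      (∀ i, Order.IsSuccLimit i → (N i : Set M) = ⋃ j ∈ Set.Iio i, (N j : Set M)) ∧
      (∀ i, Order.IsSuccLimit i → (P i : Set M) = ⋃ j ∈ Set.Iio i, (P j : Set M)) ∧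
      (∀ i, #(N i) < #M) ∧ (∀ x : M, ∃ i, x ∈ N i) ∧
      (S : Set M) = ⋃ i, (P i : Set M) := by
  classical
  have hMem : K.mem M := (K.mem_of_le M S hS).1
  choose hull hull1 hull2 hull3 using hLS M hMem
  choose hullS hullS1 hullS2 hullS3 hullS4 using exists_hullS K hLS M S hS
  have hinf : ℵ₀ ≤ #M := hκ.trans hM.le
  let ι : Type u := (#M).ord.ToType
  have hιM : #ι = #M := mk_ord_toType _
  obtain ⟨m⟩ := Cardinal.eq.1 hιM
  have : NoMaxOrder ι := Cardinal.noMaxOrder hinf
  have : Nonempty ι := by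
    have h0 : #M ≠ 0 := by
      intro h
      rw [h] at hinf
      exact absurd hinf (not_le.2 aleph0_pos)
    have : #ι ≠ 0 := by rw [hιM]; exact h0
    exact mk_ne_zero_iff.1 this
  set G : ι → L.Substructure M × L.Substructure M := ch hull hullS m with hG
  -- P ≤ S
  have hPS : ∀ i, (G i).2 ≤ S := by
    intro i
    induction i using WellFoundedLT.induction with
    | ind i ih =>
      by_cases hi : Order.IsSuccLimit i
      · rw [hG, ch_lim _ _ _ hi]
        exact iSup_le fun j => ih j.1 j.2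
      · rw [hG, ch_snd _ _ _ hi]
        exact hullS2 _
  have hPlt : ∀ j i, j < i → (G j).2 ≤ (G i).2 := by
    intro j i hji
    by_cases hi : Order.IsSuccLimit i
    · rw [hG, ch_lim _ _ _ hi]
      exact le_iSup (fun j : Set.Iio i => (ch hull hullS m j.1).2) ⟨j, hji⟩
    · intro x hx
      have : x ∈ ((⋃ j : Set.Iio i, ((ch hull hullS m j.1).2 : Set M)) ∪ m '' Set.Iic i) ∩
          (S : Set M) := ⟨Or.inl (Set.mem_iUnion.2 ⟨⟨j, hji⟩, hx⟩), hPS j hx⟩
      have h2 := hullS1 _ this
      rw [hG, ch_snd _ _ _ hi]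
      exact h2
  have hNlt : ∀ j i, j < i → (G j).1 ≤ (G i).1 := by
    intro j i hji
    by_cases hi : Order.IsSuccLimit i
    · rw [hG, ch_lim _ _ _ hi]
      exact le_iSup (fun j : Set.Iio i => (ch hull hullS m j.1).1) ⟨j, hji⟩
    · intro x hx
      rw [hG, ch_fst _ _ _ hi]
      exact hull1 _ (Or.inl (Or.inl (Set.mem_iUnion.2 ⟨⟨j, hji⟩, hx⟩)))
  have hPmono : ∀ j i, j ≤ i → (G j).2 ≤ (G i).2 := by
    intro j i hji
    rcases hji.lt_or_eq with h | h
    · exact hPlt _ _ h
    · rw [h]
  have hNmono : ∀ j i, j ≤ i → (G j).1 ≤ (G i).1 := by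
    intro j i hji
    rcases hji.lt_or_eq with h | h
    · exact hNlt _ _ h
    · rw [h]
  have hPlim : ∀ i, Order.IsSuccLimit i →
      ((G i).2 : Set M) = ⋃ j ∈ Set.Iio i, ((G j).2 : Set M) := by
    intro i hi
    have h1 : (G i).2 = ⨆ j : Set.Iio i, (G j.1).2 := by
      rw [hG, ch_lim _ _ _ hi]
    rw [h1]
    exact iSup_eq_union (fun j => (G j).2) i hi (fun j k hjk _ => hPmono j k hjk)
  have hNlim : ∀ i, Order.IsSuccLimit i →
      ((G i).1 : Set M) = ⋃ j ∈ Set.Iio i, ((G j).1 : Set M) := by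
    intro i hi
    have h1 : (G i).1 = ⨆ j : Set.Iio i, (G j.1).1 := by
      rw [hG, ch_lim _ _ _ hi]
    rw [h1]
    exact iSup_eq_union (fun j => (G j).1) i hi (fun j k hjk _ => hNmono j k hjk)
  have hPle : ∀ i, K.le M (G i).2 := by
    intro i
    induction i using WellFoundedLT.induction with
    | ind i ih =>
      by_cases hi : Order.IsSuccLimit i
      · exact le_of_limit K (fun j => (G j).2) i hi (fun j k hjk _ => hPmono j k hjk)
          (fun j hj => ih j hj) (fun j _ hj => hPlim j hj)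
      · rw [hG, ch_snd _ _ _ hi]
        exact hullS3 _
  have hNle : ∀ i, K.le M (G i).1 := by
    intro i
    induction i using WellFoundedLT.induction with
    | ind i ih =>
      by_cases hi : Order.IsSuccLimit i
      · exact le_of_limit K (fun j => (G j).1) i hi (fun j k hjk _ => hNmono j k hjk)
          (fun j hj => ih j hj) (fun j _ hj => hNlim j hj)
      · rw [hG, ch_fst _ _ _ hi]
        exact hull2 _
  have hPN : ∀ i, (G i).2 ≤ (G i).1 := by
    intro i
    induction i using WellFoundedLT.induction with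
    | ind i ih =>
      by_cases hi : Order.IsSuccLimit i
      · intro x hx
        have hx' : x ∈ ((G i).2 : Set M) := hx
        rw [hPlim i hi] at hx'
        show x ∈ ((G i).1 : Set M)
        rw [hNlim i hi]
        simp only [Set.mem_iUnion, Set.mem_Iio, SetLike.mem_coe] at hx' ⊢
        obtain ⟨k, hk, hx'⟩ := hx'
        exact ⟨k, hk, ih k hk hx'⟩
      · intro x hx
        rw [hG, ch_fst _ _ _ hi]
        exact hull1 _ (Or.inr hx)
  -- the cardinal bound
  let b : ι → Cardinal.{u} := fun i => max κ #(Set.Iic i)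
  have hb0 : ∀ i, ℵ₀ ≤ b i := fun i => hκ.trans (le_max_left _ _)
  have hbκ : ∀ i, κ ≤ b i := fun i => le_max_left _ _
  have hbI : ∀ i, #(Set.Iic i) ≤ b i := fun i => le_max_right _ _
  have hbIo : ∀ i, #(Set.Iio i) ≤ b i := fun i =>
    (mk_le_mk_of_subset Set.Iio_subset_Iic_self).trans (hbI i)
  have hbmono : ∀ i j, i ≤ j → b i ≤ b j := fun i j hij =>
    max_le_max le_rfl (mk_le_mk_of_subset (Set.Iic_subset_Iic.2 hij))
  have hbim : ∀ i, #(m '' Set.Iic i) ≤ b i := fun i => mk_image_le.trans (hbI i)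
  have hPc : ∀ i, #(G i).2 ≤ b i := by
    intro i
    induction i using WellFoundedLT.induction with
    | ind i ih =>
      have hU : #(⋃ j : Set.Iio i, ((G j.1).2 : Set M)) ≤ b i :=
        mk_union_seg (fun j => ((G j).2 : Set M)) i (b i) (hb0 i) (hbIo i)
          (fun j hj => (ih j hj).trans (hbmono _ _ hj.le))
      by_cases hi : Order.IsSuccLimit i
      · have h1 : #(G i).2 = #(⋃ j : Set.Iio i, ((G j.1).2 : Set M)) := by
          have : ((G i).2 : Set M) = ⋃ j : Set.Iio i, ((G j.1).2 : Set M) := by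
            rw [hPlim i hi, Set.biUnion_eq_iUnion]
          show #((G i).2 : Set M) = _
          rw [this]
        rw [h1]
        exact hU
      · have h2 : (G i).2 = hullS ((⋃ j : Set.Iio i, ((G j.1).2 : Set M)) ∪ m '' Set.Iic i) :=
          ch_snd _ _ _ hi
        rw [h2]
        refine (hullS4 _).trans ?_
        refine (add_le_add ((mk_union_le _ _).trans (add_le_add hU (hbim i))) (hbκ i)).trans ?_
        rw [add_eq_self (hb0 i), add_eq_self (hb0 i)]
  have hNc : ∀ i, #(G i).1 ≤ b i := by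
    intro i
    induction i using WellFoundedLT.induction with
    | ind i ih =>
      have hU : #(⋃ j : Set.Iio i, ((G j.1).1 : Set M)) ≤ b i :=
        mk_union_seg (fun j => ((G j).1 : Set M)) i (b i) (hb0 i) (hbIo i)
          (fun j hj => (ih j hj).trans (hbmono _ _ hj.le))
      by_cases hi : Order.IsSuccLimit i
      · have h1 : #(G i).1 = #(⋃ j : Set.Iio i, ((G j.1).1 : Set M)) := by
          have : ((G i).1 : Set M) = ⋃ j : Set.Iio i, ((G j.1).1 : Set M) := by
            rw [hNlim i hi, Set.biUnion_eq_iUnion]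
          show #((G i).1 : Set M) = _
          rw [this]
        rw [h1]
        exact hU
      · have h2 : (G i).1 = hull (((⋃ j : Set.Iio i, ((G j.1).1 : Set M)) ∪ m '' Set.Iic i) ∪
            ((G i).2 : Set M)) := ch_fst _ _ _ hi
        rw [h2]
        refine (hull3 _).trans ?_
        have h3 : #(((G i).2 : L.Substructure M) : Set M) ≤ b i := hPc i
        refine (add_le_add ((mk_union_le _ _).trans
          (add_le_add ((mk_union_le _ _).trans (add_le_add hU (hbim i))) h3)) (hbκ i)).trans ?_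
        rw [add_eq_self (hb0 i), add_eq_self (hb0 i), add_eq_self (hb0 i)]
  have hbM : ∀ i, b i < #M := by
    intro i
    refine max_lt hM ?_
    have h1 : Set.Iic i = insert i (Set.Iio i) := (Set.Iio_insert (a := i)).symm
    rw [h1]
    refine (mk_insert_le).trans_lt ?_
    refine add_lt_of_lt hinf ?_ (one_lt_aleph0.trans_le hinf)
    exact mk_Iio_toType_ord_lt i
  -- covering
  have hcov : ∀ x : M, ∃ i, ¬ Order.IsSuccLimit i ∧ x ∈ m '' Set.Iic i := by
    intro x
    obtain ⟨j, hj⟩ := exists_gt (m.symm x)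
    have hne : (Set.Ioi (m.symm x)).Nonempty := ⟨j, hj⟩
    obtain ⟨k, hk, hmin⟩ := WellFounded.has_min
      (IsWellFounded.wf (r := ((· < ·) : ι → ι → Prop))) (Set.Ioi (m.symm x)) hne
    refine ⟨k, ?_, m.symm x, Set.mem_Iic.2 (le_of_lt (Set.mem_Ioi.1 hk)), by simp⟩
    intro hlim
    refine hlim.isSuccPrelimit (m.symm x) ⟨hk, ?_⟩
    intro c hc1 hc2
    exact hmin c hc1 hc2
  refine ⟨ι, inferInstance, inferInstance, inferInstance, fun i => (G i).1, fun i => (G i).2,
    hNle, hPle, hPN, hNmono, hPmono, hNlim, hPlim, fun i => (hNc i).trans_lt (hbM i), ?_, ?_⟩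
  · intro x
    obtain ⟨i, hi, hx⟩ := hcov x
    refine ⟨i, ?_⟩
    show x ∈ (G i).1
    rw [hG, ch_fst _ _ _ hi]
    exact hull1 _ (Or.inl (Or.inr hx))
  · apply Set.Subset.antisymm
    · intro x hxS
      obtain ⟨i, hi, hx⟩ := hcov x
      rw [Set.mem_iUnion]
      refine ⟨i, ?_⟩
      show x ∈ (G i).2
      rw [hG, ch_snd _ _ _ hi]
      exact hullS1 _ ⟨Or.inr hx, hxS⟩
    · intro x hx
      obtain ⟨i, hx⟩ := Set.mem_iUnion.1 hx
      exact hPS i hx

end Pool.Agent.HE54
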