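import Pool.Agent.HE54.Chain

set_option autoImplicit false

open FirstOrder Cardinal

universe u

namespace Pool.Agent.HE54

open Pool.Agent.HL54

variable {L : FirstOrder.Language.{u, u}}

/-- An AEC with Löwenheim–Skolem property at `κ` is determined by its pairs of size `≤ κ`. -/
theorem le_of_small (K K' : AEC L) {κ : Cardinal.{u}} (hκ : ℵ₀ ≤ κ)
    (hLS : ∀ (M : Type u) [L.Structure M], K.mem M → ∀ A : Set M,
      ∃ S : L.Substructure M, A ⊆ (S : Set M) ∧ K.le M S ∧ #S ≤ #A + κ)
    (hs : ∀ (M : Type u) [L.Structure M] (S : L.Substructure M), #M ≤ κ → K.le M S → K'.le M S)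
    (M : Type u) [L.Structure M] (S : L.Substructure M) (h : K.le M S) : K'.le M S := by
  have key : ∀ θ : Cardinal.{u}, ∀ (M : Type u) [L.Structure M] (S : L.Substructure M),
      #M = θ → K.le M S → K'.le M S := by
    intro θ
    induction θ using WellFoundedLT.induction with
    | ind θ ih =>
      intro M _ S hM hS
      by_cases hle : #M ≤ κ
      · exact hs M S hle hS
      · obtain ⟨ι, _, _, _, N, P, hN, hP, hPN, hNm, hPm, hNc, hPc, hNs, hNu, hPu⟩ :=
          exists_chain K hκ hLS M S hS (not_le.1 hle)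
        have hsz : ∀ i, #(N i) < θ := fun i => hM ▸ hNs i
        have h1 : ∀ i j, i ≤ j → K'.le (N j) ((N i).comap (N j).subtype.toHom) := fun i j hij =>
          ih _ (hsz j) (N j) _ rfl (K.coherence M (N j) (N i) (hNm i j hij) (hN j) (hN i))
        have h2 := K'.chain M ι N (fun i j hij => ⟨hNm i j hij, h1 i j hij⟩) hNc hNu
        have h3 : ∀ i, K'.le M (P i) := fun i =>
          K'.le_trans M (N i) (P i) (hPN i)
            (ih _ (hsz i) (N i) _ rfl (K.coherence M (N i) (P i) (hPN i) (hN i) (hP i))) (h2.2 i)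
        exact K'.smooth M ι P (fun i j hij => ⟨hPm i j hij,
          K'.coherence M (P j) (P i) (hPm i j hij) (h3 j) (h3 i)⟩) hPc h3 S hPu
  exact key _ M S rfl h

end Pool.Agent.HE54
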