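import Pool.Agent.HL54.Defs

set_option autoImplicit false

open FirstOrder Cardinal

universe u

namespace Pool.Agent.HE54

open Pool.Agent.HL54

variable {L : FirstOrder.Language.{u, u}}

/-- `f : M → N` strong: `M` and `N` are in `K`. Proof: `K.mem_of_le` and `mem_iso` along
`f.equivRange.symm`. -/
theorem isEmb_mem (K : AEC L) {M N : Type u} [L.Structure M] [L.Structure N] {f : M ↪[L] N}
    (h : K.IsEmb f) : K.mem M ∧ K.mem N := by
  obtain ⟨h1, h2⟩ := K.mem_of_le N _ h
  exact ⟨K.mem_iso _ _ f.equivRange.symm h2, h1⟩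

/-- the inclusion of a strong substructure is strong -/
theorem isEmb_subtype (K : AEC L) {N : Type u} [L.Structure N] {S : L.Substructure N}
    (h : K.le N S) : K.IsEmb S.subtype := by
  have h1 : S.subtype.toHom.range = S := FirstOrder.Language.Substructure.range_subtype S
  unfold AEC.IsEmb
  rw [h1]
  exact h

/-- the image of a strong substructure under a strong embedding is strong. Proof:
`(S.map f)` seen in `range f` is the image of `S` under `f.equivRange` (`le_iso`), then
`le_trans`. -/
theorem le_map (K : AEC L) {M N : Type u} [L.Structure M] [L.Structure N] {f : M ↪[L] N}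
    (hf : K.IsEmb f) {S : L.Substructure M} (hS : K.le M S) : K.le N (S.map f.toHom) := by
  have h1 := K.le_iso M f.toHom.range f.equivRange S hS
  have h2 : S.map f.equivRange.toHom
      = (S.map f.toHom).comap (FirstOrder.Language.Substructure.subtype f.toHom.range).toHom := by
    ext x
    simp only [FirstOrder.Language.Substructure.mem_map,
      FirstOrder.Language.Substructure.mem_comap]
    constructor
    · rintro ⟨y, hy, rfl⟩
      exact ⟨y, hy, rfl⟩
    · rintro ⟨y, hy, h3⟩
      exact ⟨y, hy, Subtype.ext h3⟩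
  rw [h2] at h1
  refine K.le_trans N f.toHom.range (S.map f.toHom) ?_ h1 hf
  intro x hx
  obtain ⟨y, hy, rfl⟩ := FirstOrder.Language.Substructure.mem_map.1 hx
  exact ⟨y, rfl⟩

/-- composition of strong embeddings -/
theorem isEmb_comp (K : AEC L) {M N P : Type u} [L.Structure M] [L.Structure N] [L.Structure P]
    {f : M ↪[L] N} {g : N ↪[L] P} (hf : K.IsEmb f) (hg : K.IsEmb g) : K.IsEmb (g.comp f) := by
  have h1 := le_map K hg (S := f.toHom.range) hf
  have h2 : (g.comp f).toHom.range = f.toHom.range.map g.toHom := by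
    ext x
    simp only [FirstOrder.Language.Substructure.mem_map, FirstOrder.Language.Hom.mem_range]
    constructor
    · rintro ⟨y, rfl⟩
      exact ⟨f y, ⟨y, rfl⟩, rfl⟩
    · rintro ⟨z, ⟨y, rfl⟩, rfl⟩
      exact ⟨y, rfl⟩
  unfold AEC.IsEmb
  rw [h2]
  exact h1

/-- restriction of the codomain of a strong embedding to a strong substructure (coherence) -/
theorem isEmb_codRestrict (K : AEC L) {M N : Type u} [L.Structure M] [L.Structure N]
    {f : M ↪[L] N} (hf : K.IsEmb f) {S : L.Substructure N} (hS : K.le N S)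
    (h : ∀ x, f x ∈ S) : K.IsEmb (f.codRestrict S h) := by
  have h0 : f.toHom.range ≤ S := by
    rintro x hx
    obtain ⟨y, rfl⟩ := FirstOrder.Language.Hom.mem_range.1 hx
    exact h y
  have h1 := K.coherence N S f.toHom.range h0 hS hf
  have h2 : (f.codRestrict S h).toHom.range = f.toHom.range.comap S.subtype.toHom := by
    ext x
    simp only [FirstOrder.Language.Substructure.mem_comap, FirstOrder.Language.Hom.mem_range]
    constructor
    · rintro ⟨y, rfl⟩
      exact ⟨y, rfl⟩
    · rintro ⟨y, h3⟩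
      exact ⟨y, Subtype.ext h3⟩
  unfold AEC.IsEmb
  rw [h2]
  exact h1

/-- the Löwenheim–Skolem property at every `κ ≥ LS(K)`. Proof: the set in the definition of
`LS` is nonempty (`exists_ls`, take the maximum with `ℵ₀` and `L.card`), so `csInf_mem`. -/
theorem ls_spec (K : AEC L) {κ : Cardinal.{u}} (hK : K.LS ≤ κ) (M : Type u) [L.Structure M]
    (hM : K.mem M) (A : Set M) :
    ∃ S : L.Substructure M, A ⊆ (S : Set M) ∧ K.le M S ∧ #S ≤ #A + κ := by
  have hne : {μ : Cardinal.{u} | ℵ₀ ≤ μ ∧ L.card ≤ μ ∧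
      ∀ (M : Type u) [L.Structure M], K.mem M → ∀ A : Set M,
        ∃ S : L.Substructure M, A ⊆ (S : Set M) ∧ K.le M S ∧ #S ≤ #A + μ}.Nonempty := by
    obtain ⟨μ, hμ⟩ := K.exists_ls
    refine ⟨max ℵ₀ (max L.card μ), le_max_left _ _,
      (le_max_left _ _).trans (le_max_right _ _), ?_⟩
    intro M _ hM A
    obtain ⟨S, h1, h2, h3⟩ := hμ M hM A
    exact ⟨S, h1, h2, h3.trans (add_le_add le_rfl
      ((le_max_right _ _).trans (le_max_right _ _)))⟩
  obtain ⟨-, -, h⟩ := csInf_mem hne
  obtain ⟨S, h1, h2, h3⟩ := h M hM A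
  exact ⟨S, h1, h2, h3.trans (add_le_add le_rfl hK)⟩

end Pool.Agent.HE54
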