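import Pool.Agent.HE54.Det
import Pool.Agent.HE54.Emb

set_option autoImplicit false

open FirstOrder Cardinal

universe u

namespace Pool.Agent.HE54

open Pool.Agent.HL54

variable {L : FirstOrder.Language.{u, u}}

/-- two AECs with the same `mem` and `le` are equal -/
theorem aec_ext (K K' : AEC L) (h1 : @AEC.mem L K = @AEC.mem L K')
    (h2 : @AEC.le L K = @AEC.le L K') : K = K' := by
  cases K
  cases K'
  dsimp only at h1 h2
  subst h1
  subst h2
  rfl

/-- the codes: pairs of a structure on a subset of `X` and a substructure -/
def Code (L : FirstOrder.Language.{u, u}) (X : Type u) : Type u :=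
  Set (Σ A : Set X, Σ _ : L.Structure A, L.Substructure A)

/-- the code of an AEC -/
def code (K : AEC L) (X : Type u) : Code L X :=
  {p | @AEC.le L K p.1 p.2.1 p.2.2}

theorem le_of_code_eq {K K' : AEC L} {X : Type u} (h : code K X = code K' X)
    (M : Type u) [inst : L.Structure M] (S : L.Substructure M) (hM : #M ≤ #X)
    (hS : K.le M S) : K'.le M S := by
  obtain ⟨f⟩ := hM
  let e : M ≃ (Set.range f : Set X) := Equiv.ofInjective f f.injective
  let str : L.Structure (Set.range f : Set X) := e.inducedStructure
  let e' : M ≃[L] (Set.range f : Set X) := e.inducedStructureEquiv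
  have h1 : K.le (Set.range f : Set X) (S.map e'.toHom) := K.le_iso _ _ e' S hS
  have h3 : K'.le (Set.range f : Set X) (S.map e'.toHom) := by
    have h2 := congrFun h (⟨Set.range f, str, S.map e'.toHom⟩ :
      Σ A : Set X, Σ _ : L.Structure A, L.Substructure A)
    exact (iff_of_eq h2).1 h1
  have h4 := K'.le_iso _ _ e'.symm _ h3
  have h5 : (S.map e'.toHom).map e'.symm.toHom = S := by
    rw [FirstOrder.Language.Substructure.map_map]
    have : e'.symm.toHom.comp e'.toHom = FirstOrder.Language.Hom.id L M := by
      ext x
      simp
    rw [this]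
    exact FirstOrder.Language.Substructure.map_id S
  rw [h5] at h4
  exact h4

/-- There is only a set of AECs `K` in `L` with `LS(K) ≤ κ`. Proof: map `K` to the set of all
`(A, str, S)`, `A` a subset of `κ.out`, `str` an `L`-structure on `A`, `S` a substructure with
`K.le A S`. This is injective: if `K`, `K'` have the same image, they agree on structures of
size `≤ κ` (transport along a bijection with a subset of `κ.out`, `Equiv.inducedStructure`,
`le_iso`), so by `le_of_small` (with `ls_spec`) the relations `le` agree, hence also `mem`
(`mem M ↔ le M ⊤`), and the other fields are proofs. -/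
theorem small_aec {κ : Cardinal.{u}} (hκ : ℵ₀ ≤ κ) : Small.{u} {K : AEC L // K.LS ≤ κ} := by
  refine small_of_injective (β := Code L κ.out) (f := fun K => code K.1 κ.out) ?_
  intro K K' h
  dsimp only at h
  have key : ∀ (K K' : {K : AEC L // K.LS ≤ κ}), code K.1 κ.out = code K'.1 κ.out →
      ∀ (M : Type u) [L.Structure M] (S : L.Substructure M), K.1.le M S → K'.1.le M S := by
    intro K K' h M _ S hS
    refine le_of_small K.1 K'.1 hκ (fun M _ hM A => ls_spec K.1 K.2 M hM A) ?_ M S hS
    intro M _ S hM hS
    exact le_of_code_eq h M S (by rw [Cardinal.mk_out]; exact hM) hS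
  have hle : ∀ (M : Type u) [L.Structure M] (S : L.Substructure M),
      K.1.le M S ↔ K'.1.le M S := fun M _ S => ⟨key K K' h M S, key K' K h.symm M S⟩
  apply Subtype.ext
  apply aec_ext
  · funext M inst
    apply propext
    constructor
    · intro hM
      exact (K'.1.mem_of_le M ⊤ ((hle M ⊤).1 (K.1.le_refl M hM))).1
    · intro hM
      exact (K.1.mem_of_le M ⊤ ((hle M ⊤).2 (K'.1.le_refl M hM))).1
  · funext M inst S
    exact propext (hle M S)

end Pool.Agent.HE54
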