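import Pool.Agent.HE54.Trans
import Pool.Agent.HE54.Emb

set_option autoImplicit false

open FirstOrder Cardinal

universe u

namespace Pool.Agent.HE54

open Pool.Agent.HL54

/-- an embedding for `L`-structures, as an embedding for `L'`-structures -/
def Ren.emb' {L L' : FirstOrder.Language.{u, u}} (e : Ren L L') {M N : Type u}
    (s : L'.Structure M) (t : L.Structure N)
    (f : @FirstOrder.Language.Embedding L M N (e.str s) t) :
    @FirstOrder.Language.Embedding L' M N s (e.symm.str t) :=
  @FirstOrder.Language.Embedding.mk L' M N s (e.symm.str t)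
    (@FirstOrder.Language.Embedding.toEmbedding L M N (e.str s) t f)
    (fun {n} g x => by
      have h := @FirstOrder.Language.Embedding.map_fun' L M N (e.str s) t f n ((e.fn n).symm g) x
      have h2 : (e.str s).funMap ((e.fn n).symm g) x = s.funMap g x := by
        show s.funMap (e.fn n ((e.fn n).symm g)) x = _
        rw [Equiv.apply_symm_apply]
      rw [h2] at h
      exact h)
    (fun {n} r x => by
      have h := @FirstOrder.Language.Embedding.map_rel' L M N (e.str s) t f n ((e.rel n).symm r) x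
      have h2 : (e.str s).RelMap ((e.rel n).symm r) x = s.RelMap r x := by
        show s.RelMap (e.rel n ((e.rel n).symm r)) x = _
        rw [Equiv.apply_symm_apply]
      rw [h2] at h
      exact h)

theorem Ren.aec_AP {L L' : FirstOrder.Language.{u, u}} (e : Ren L L') (K : AEC L)
    {θ : Cardinal.{u}} (h : K.AP θ) : (e.aec K).AP θ := by
  intro M₀ M₁ M₂ s₀ s₁ s₂ h0 h1 h2 g₁ g₂ e₁ e₂
  obtain ⟨N, t, f₁, f₂, k₁, k₂, hc⟩ := @h M₀ M₁ M₂ (e.str s₀) (e.str s₁) (e.str s₂) h0 h1 h2
    (e.emb s₀ s₁ g₁) (e.emb s₀ s₂ g₂) e₁ e₂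
  refine ⟨N, e.symm.str t, e.emb' s₁ t f₁, e.emb' s₂ t f₂, ?_, ?_, hc⟩
  · exact (le_congr K N t (e.str (e.symm.str t)) (e.str_symm t) _ _ rfl).2 k₁
  · exact (le_congr K N t (e.str (e.symm.str t)) (e.str_symm t) _ _ rfl).2 k₂

theorem Ren.aec_AP_iff {L L' : FirstOrder.Language.{u, u}} (e : Ren L L') (K : AEC L)
    (θ : Cardinal.{u}) : (e.aec K).AP θ ↔ K.AP θ := by
  constructor
  · intro h
    have := e.symm.aec_AP (e.aec K) h
    rwa [e.aec_symm] at this
  · exact e.aec_AP K

theorem Ren.aec_LS {L L' : FirstOrder.Language.{u, u}} (e : Ren L L') (K : AEC L)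
    {κ : Cardinal.{u}} (hκ : ℵ₀ ≤ κ) (hL : L'.card ≤ κ) (hK : K.LS ≤ κ) :
    (e.aec K).LS ≤ κ := by
  apply csInf_le'
  refine ⟨hκ, hL, ?_⟩
  intro M s hM A
  obtain ⟨S, h1, h2, h3⟩ := @ls_spec L K κ hK M (e.str s) hM A
  exact ⟨e.bus s S, h1, h2, h3⟩

/-- languages with symbols in a fixed set -/
def langOf {T : Type u} (F R : ℕ → Set T) : FirstOrder.Language.{u, u} where
  Functions := fun n => F n
  Relations := fun n => R n

theorem Ren.card_eq {L L' : FirstOrder.Language.{u, u}} (e : Ren L L') : L'.card = L.card := by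
  exact Cardinal.mk_congr (Equiv.sumCongr (Equiv.sigmaCongrRight fun n => (e.fn n).symm)
    (Equiv.sigmaCongrRight fun n => (e.rel n).symm))

theorem exists_ren {T : Type u} (L : FirstOrder.Language.{u, u}) (h : L.card ≤ #T) :
    ∃ (F R : ℕ → Set T), Nonempty (Ren L (langOf F R)) := by
  have hf : ∀ n, #(L.Functions n) ≤ #T := fun n =>
    (Cardinal.mk_le_of_injective (f := fun f : L.Functions n => (Sum.inl ⟨n, f⟩ : L.Symbols))
      (by
        intro a b hab
        have := Sum.inl_injective hab
        exact eq_of_heq (Sigma.mk.inj this).2)).trans h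
  have hr : ∀ n, #(L.Relations n) ≤ #T := fun n =>
    (Cardinal.mk_le_of_injective (f := fun f : L.Relations n => (Sum.inr ⟨n, f⟩ : L.Symbols))
      (by
        intro a b hab
        have := Sum.inr_injective hab
        exact eq_of_heq (Sigma.mk.inj this).2)).trans h
  let i : ∀ n, L.Functions n ↪ T := fun n => Classical.choice ((Cardinal.le_def _ _).1 (hf n))
  let j : ∀ n, L.Relations n ↪ T := fun n => Classical.choice ((Cardinal.le_def _ _).1 (hr n))
  exact ⟨fun n => Set.range (i n), fun n => Set.range (j n),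
    ⟨⟨fun n => Equiv.ofInjective (i n) (i n).injective,
      fun n => Equiv.ofInjective (j n) (j n).injective⟩⟩⟩

end Pool.Agent.HE54
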