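import Pool.Agent.HE54.Restr
import Pool.Agent.HE54.SmallK
import Pool.Agent.HE54.TransAP

set_option autoImplicit false

open FirstOrder Cardinal

universe u

namespace Pool.Agent.HE54

open Pool.Agent.HL54

/-- the least `θ₀` such that `θ`-AP fails for all `θ ≥ θ₀` (if there is one) -/
noncomputable def thr {L : FirstOrder.Language.{u, u}} (K : AEC L) : Cardinal.{u} :=
  sInf {θ₀ : Cardinal.{u} | ∀ θ, θ₀ ≤ θ → ¬ K.AP θ}

/-- the supremum of the thresholds over all AECs with `|L|, LS ≤ κ` -/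
theorem exists_sup (κ : Cardinal.{u}) (hκ : ℵ₀ ≤ κ) : ∃ μ₀ : Cardinal.{u},
    ∀ (L : FirstOrder.Language.{u, u}) (K : AEC L), L.card ≤ κ → K.LS ≤ κ → thr K ≤ μ₀ := by
  classical
  let J : Type u := (ℕ → Set κ.out) × (ℕ → Set κ.out)
  have hs : ∀ j : J, Small.{u} {K : AEC (langOf j.1 j.2) // K.LS ≤ κ} := fun j => small_aec hκ
  let X : Type u := Σ j : J, Shrink.{u} {K : AEC (langOf j.1 j.2) // K.LS ≤ κ}
  refine ⟨⨆ x : X, thr ((equivShrink _).symm x.2).1, ?_⟩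
  intro L K hL hK
  obtain ⟨F, R, ⟨e⟩⟩ := exists_ren (T := κ.out) L (by rw [Cardinal.mk_out]; exact hL)
  have hK' : (e.aec K).LS ≤ κ := e.aec_LS K hκ (by rw [e.card_eq]; exact hL) hK
  have h1 : thr K = thr (e.aec K) := by
    unfold thr
    congr 1
    ext θ₀
    simp only [Set.mem_setOf_eq, e.aec_AP_iff]
  rw [h1]
  have h3 := le_ciSup (f := fun x : X => thr ((equivShrink _).symm x.2).1)
    Cardinal.bddAbove_of_small (⟨(F, R), equivShrink _ ⟨e.aec K, hK'⟩⟩ : X)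
  simpa using h3

/-- A non-amalgamable unbounded span refutes `θ`-AP for all `θ` above its size. -/
theorem not_AP_of_span {L : FirstOrder.Language.{u, u}} {K : AEC L} {κ : Cardinal.{u}}
    (hκ : ℵ₀ ≤ κ) (hK : K.LS ≤ κ) {s : Span K} (hs : s.Unbounded) (ha : ¬ s.Amalg)
    {θ : Cardinal.{u}} (hθ : κ ≤ θ) (h₁ : #s.M₁ ≤ θ) (h₂ : #s.M₂ ≤ θ) : ¬ K.AP θ := by
  intro hAP
  obtain ⟨t, ht, h3⟩ := hs θ
  have h₀ : #s.M₀ ≤ θ := (Cardinal.mk_le_of_injective s.g₁.injective).trans h₁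
  obtain ⟨r, hr, r0, r1, r2⟩ := Span.exists_ext_eq hκ hK ht hθ h₀ h₁ h₂ h3
  exact ha (Span.Amalg.of_ext hr (hAP r.M₀ r.M₁ r.M₂ r0 r1 r2 r.g₁ r.g₂ r.e₁ r.e₂))

theorem exists_threshold (κ : Cardinal.{u}) (hκ : ℵ₀ ≤ κ) :
    ∃ μ₀ : Cardinal.{u}, ∀ μ : Cardinal.{u}, μ₀ ≤ μ →
      ∀ (L : FirstOrder.Language.{u, u}) (K : AEC L), L.card ≤ κ → K.LS ≤ κ → K.AP μ →
        ∀ s : Span K, s.Unbounded → s.Amalg := by
  obtain ⟨μ₀, hμ₀⟩ := exists_sup κ hκ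
  refine ⟨μ₀, ?_⟩
  intro μ hμ L K hL hK hAP s hs
  by_contra ha
  have h1 : thr K ∈ {θ₀ : Cardinal.{u} | ∀ θ, θ₀ ≤ θ → ¬ K.AP θ} :=
    csInf_mem (s := {θ₀ : Cardinal.{u} | ∀ θ, θ₀ ≤ θ → ¬ K.AP θ})
      ⟨max κ (max #s.M₁ #s.M₂), fun θ hθ => not_AP_of_span hκ hK hs ha
        ((le_max_left _ _).trans hθ)
        (((le_max_left _ _).trans (le_max_right _ _)).trans hθ)
        (((le_max_right _ _).trans (le_max_right _ _)).trans hθ)⟩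
  exact h1 μ ((hμ₀ L K hL hK).trans hμ) hAP

end Pool.Agent.HE54
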