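import Pool.Agent.HE54.SpanDefs
import Pool.Agent.HE54.Emb

set_option autoImplicit false

open FirstOrder Cardinal

universe u

namespace Pool.Agent.HE54

open Pool.Agent.HL54

variable {L : FirstOrder.Language.{u, u}}

/-- If an extension of `s` can be amalgamated, then `s` can (`isEmb_comp`). -/
theorem Span.Amalg.of_ext {K : AEC L} {s t : Span K} (h : s.Ext t) (ht : t.Amalg) :
    s.Amalg := by
  obtain ⟨h₀, h₁, h₂, -, k₁, k₂, c₁, c₂⟩ := h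
  obtain ⟨N, sN, f₁, f₂, e₁, e₂, e⟩ := ht
  refine ⟨N, sN, f₁.comp h₁, f₂.comp h₂, isEmb_comp K k₁ e₁, isEmb_comp K k₂ e₂, fun x => ?_⟩
  rw [FirstOrder.Language.Embedding.comp_apply, FirstOrder.Language.Embedding.comp_apply,
    c₁ x, c₂ x, e]

/-- a strong substructure of size exactly `θ` above a set of size at most `θ` and a set of size
at least `θ` -/
private theorem Restr_ls {K : AEC L} {κ θ : Cardinal.{u}} (hκ : ℵ₀ ≤ κ) (hK : K.LS ≤ κ)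
    (hκθ : κ ≤ θ) (M : Type u) [L.Structure M] (hM : K.mem M) (A : Set M) (hA : #A ≤ θ)
    (hA' : θ ≤ #A) :
    ∃ S : L.Substructure M, A ⊆ (S : Set M) ∧ K.le M S ∧ #S = θ := by
  obtain ⟨S, h1, h2, h3⟩ := ls_spec K hK M hM A
  have hθ : ℵ₀ ≤ θ := hκ.trans hκθ
  refine ⟨S, h1, h2, le_antisymm ?_ ?_⟩
  · exact h3.trans ((add_le_add hA hκθ).trans (Cardinal.add_eq_self hθ).le)
  · exact hA'.trans (Cardinal.mk_le_mk_of_subset h1)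

/-- An extension of size exactly `θ`, `θ ≥ κ ≥ LS(K)` and `θ ≥` the sizes of `s`, below an
extension with `#t.M₀ ≥ θ`. Proof: `A₀ ⊆ t.M₀` of size `θ` containing the image of `h₀`
(union of a subset of size `θ` with that image), `S₀ ⊇ A₀` strong of size `θ` (`ls_spec`),
`S₁ ⊇ t.g₁ '' S₀ ∪ range h₁` strong in `t.M₁` of size `θ`, `S₂` the same; the maps
`S₀ → Sᵢ` and `s.Mᵢ → Sᵢ` by `codRestrict` (`isEmb_codRestrict`, `isEmb_comp`,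
`isEmb_subtype`). -/
theorem Span.exists_ext_eq {K : AEC L} {κ θ : Cardinal.{u}} (hκ : ℵ₀ ≤ κ) (hK : K.LS ≤ κ)
    {s t : Span K} (h : s.Ext t) (hκθ : κ ≤ θ) (h₀ : #s.M₀ ≤ θ) (h₁ : #s.M₁ ≤ θ)
    (h₂ : #s.M₂ ≤ θ) (ht : θ ≤ #t.M₀) :
    ∃ r : Span K, s.Ext r ∧ #r.M₀ = θ ∧ #r.M₁ = θ ∧ #r.M₂ = θ := by
  obtain ⟨f₀, f₁, f₂, k₀, k₁, k₂, c₁, c₂⟩ := h
  have hθ : ℵ₀ ≤ θ := hκ.trans hκθ
  have m₀ : K.mem t.M₀ := (isEmb_mem K t.e₁).1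
  have m₁ : K.mem t.M₁ := (isEmb_mem K t.e₁).2
  have m₂ : K.mem t.M₂ := (isEmb_mem K t.e₂).2
  -- the substructure of `t.M₀`
  obtain ⟨B, hB⟩ := Cardinal.le_mk_iff_exists_set.1 ht
  have hr : ∀ {X Y : Type u} (f : X → Y), #X ≤ θ → #(Set.range f) ≤ θ := fun f hX =>
    Cardinal.mk_range_le.trans hX
  obtain ⟨S₀, hS₀, l₀, n₀⟩ := Restr_ls (K := K) hκ hK hκθ t.M₀ m₀ (B ∪ Set.range f₀)
    ((Cardinal.mk_union_le _ _).trans
      ((add_le_add hB.le (hr _ h₀)).trans (Cardinal.add_eq_self hθ).le))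
    (hB.ge.trans (Cardinal.mk_le_mk_of_subset Set.subset_union_left))
  have hf₀ : ∀ x, f₀ x ∈ S₀ := fun x => hS₀ (Or.inr ⟨x, rfl⟩)
  -- the substructures of `t.M₁` and `t.M₂`
  have him : ∀ {Y : Type u} [L.Structure Y] (g : t.M₀ ↪[L] Y), #(g '' (S₀ : Set t.M₀)) = θ := by
    intro Y _ g
    rw [Cardinal.mk_image_eq g.injective]
    exact n₀
  obtain ⟨S₁, hS₁, l₁, n₁⟩ := Restr_ls (K := K) hκ hK hκθ t.M₁ m₁
    (t.g₁ '' (S₀ : Set t.M₀) ∪ Set.range f₁)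
    ((Cardinal.mk_union_le _ _).trans
      ((add_le_add (him _).le (hr _ h₁)).trans (Cardinal.add_eq_self hθ).le))
    ((him t.g₁).ge.trans (Cardinal.mk_le_mk_of_subset Set.subset_union_left))
  obtain ⟨S₂, hS₂, l₂, n₂⟩ := Restr_ls (K := K) hκ hK hκθ t.M₂ m₂
    (t.g₂ '' (S₀ : Set t.M₀) ∪ Set.range f₂)
    ((Cardinal.mk_union_le _ _).trans
      ((add_le_add (him _).le (hr _ h₂)).trans (Cardinal.add_eq_self hθ).le))
    ((him t.g₂).ge.trans (Cardinal.mk_le_mk_of_subset Set.subset_union_left))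
  have hf₁ : ∀ x, f₁ x ∈ S₁ := fun x => hS₁ (Or.inr ⟨x, rfl⟩)
  have hf₂ : ∀ x, f₂ x ∈ S₂ := fun x => hS₂ (Or.inr ⟨x, rfl⟩)
  have hg₁ : ∀ x : S₀, (t.g₁.comp S₀.subtype) x ∈ S₁ := fun x =>
    hS₁ (Or.inl ⟨x.1, x.2, rfl⟩)
  have hg₂ : ∀ x : S₀, (t.g₂.comp S₀.subtype) x ∈ S₂ := fun x =>
    hS₂ (Or.inl ⟨x.1, x.2, rfl⟩)
  let r : Span K :=
    { M₀ := S₀
      M₁ := S₁
      M₂ := S₂
      g₁ := (t.g₁.comp S₀.subtype).codRestrict S₁ hg₁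
      g₂ := (t.g₂.comp S₀.subtype).codRestrict S₂ hg₂
      e₁ := isEmb_codRestrict K (isEmb_comp K (isEmb_subtype K l₀) t.e₁) l₁ hg₁
      e₂ := isEmb_codRestrict K (isEmb_comp K (isEmb_subtype K l₀) t.e₂) l₂ hg₂ }
  refine ⟨r, ⟨f₀.codRestrict S₀ hf₀, f₁.codRestrict S₁ hf₁, f₂.codRestrict S₂ hf₂,
    isEmb_codRestrict K k₀ l₀ hf₀, isEmb_codRestrict K k₁ l₁ hf₁,
    isEmb_codRestrict K k₂ l₂ hf₂, fun x => ?_, fun x => ?_⟩, n₀, n₁, n₂⟩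
  · exact Subtype.ext (c₁ x)
  · exact Subtype.ext (c₂ x)

/-- A non-amalgamable span with arbitrarily large extensions gives failure of `θ`-AP for all
`θ ≥ max κ, #s.M₀, #s.M₁, #s.M₂`. -/
theorem Span.not_AP {K : AEC L} {κ : Cardinal.{u}} (hκ : ℵ₀ ≤ κ) (hK : K.LS ≤ κ)
    {s : Span K} (hs : s.Unbounded) (ha : ¬ s.Amalg) :
    ∃ θ₀ : Cardinal.{u}, ∀ θ, θ₀ ≤ θ → ¬ K.AP θ := by
  refine ⟨max κ (max #s.M₀ (max #s.M₁ #s.M₂)), fun θ hθ hAP => ha ?_⟩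
  obtain ⟨t, ht, htθ⟩ := hs θ
  have hκθ : κ ≤ θ := (le_max_left _ _).trans hθ
  have h₀ : #s.M₀ ≤ θ := ((le_max_left _ _).trans (le_max_right _ _)).trans hθ
  have h₁ : #s.M₁ ≤ θ :=
    (((le_max_left _ _).trans (le_max_right _ _)).trans (le_max_right _ _)).trans hθ
  have h₂ : #s.M₂ ≤ θ :=
    (((le_max_right _ _).trans (le_max_right _ _)).trans (le_max_right _ _)).trans hθ
  obtain ⟨r, hr, n₀, n₁, n₂⟩ := Span.exists_ext_eq hκ hK ht hκθ h₀ h₁ h₂ htθ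
  exact Span.Amalg.of_ext hr (hAP r.M₀ r.M₁ r.M₂ n₀ n₁ n₂ r.g₁ r.g₂ r.e₁ r.e₂)

end Pool.Agent.HE54
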