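import Pool.Agent.HL54.Defs

set_option autoImplicit false

open FirstOrder Cardinal

universe u

namespace Pool.Agent.HE54

open Pool.Agent.HL54

variable {L : FirstOrder.Language.{u, u}}

/-- A span `M₁ ← M₀ → M₂` of strong embeddings of `K`. -/
structure Span (K : AEC L) where
  M₀ : Type u
  M₁ : Type u
  M₂ : Type u
  [s₀ : L.Structure M₀]
  [s₁ : L.Structure M₁]
  [s₂ : L.Structure M₂]
  g₁ : M₀ ↪[L] M₁
  g₂ : M₀ ↪[L] M₂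
  e₁ : K.IsEmb g₁
  e₂ : K.IsEmb g₂

attribute [instance] Span.s₀ Span.s₁ Span.s₂

/-- The span can be amalgamated. -/
def Span.Amalg {K : AEC L} (s : Span K) : Prop :=
  ∃ (N : Type u) (_ : L.Structure N) (f₁ : s.M₁ ↪[L] N) (f₂ : s.M₂ ↪[L] N),
    K.IsEmb f₁ ∧ K.IsEmb f₂ ∧ ∀ x : s.M₀, f₁ (s.g₁ x) = f₂ (s.g₂ x)

/-- `t` is an extension of the span `s`: there are strong embeddings `hᵢ : s.Mᵢ → t.Mᵢ` which
commute with the maps of the spans. -/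
def Span.Ext {K : AEC L} (s t : Span K) : Prop :=
  ∃ (h₀ : s.M₀ ↪[L] t.M₀) (h₁ : s.M₁ ↪[L] t.M₁) (h₂ : s.M₂ ↪[L] t.M₂),
    K.IsEmb h₀ ∧ K.IsEmb h₁ ∧ K.IsEmb h₂ ∧ (∀ x, h₁ (s.g₁ x) = t.g₁ (h₀ x)) ∧
    ∀ x, h₂ (s.g₂ x) = t.g₂ (h₀ x)

/-- The span has extensions of arbitrarily large size. -/
def Span.Unbounded {K : AEC L} (s : Span K) : Prop :=
  ∀ θ : Cardinal.{u}, ∃ t : Span K, s.Ext t ∧ θ ≤ #t.M₀

end Pool.Agent.HE54
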