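import Pool.Agent.HL54.Defs

set_option autoImplicit false

open FirstOrder Cardinal

universe u

namespace Pool.Agent.HE54

open Pool.Agent.HL54

/-- A renaming of the symbols of `L` as symbols of `L'`. -/
structure Ren (L L' : FirstOrder.Language.{u, u}) where
  fn : ∀ n, L.Functions n ≃ L'.Functions n
  rel : ∀ n, L.Relations n ≃ L'.Relations n

def Ren.symm {L L' : FirstOrder.Language.{u, u}} (e : Ren L L') : Ren L' L :=
  ⟨fun n => (e.fn n).symm, fun n => (e.rel n).symm⟩

/-- an `L'`-structure as an `L`-structure -/
@[instance_reducible]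
def Ren.str {L L' : FirstOrder.Language.{u, u}} (e : Ren L L') {M : Type u}
    (s : L'.Structure M) : L.Structure M where
  funMap := fun {n} f x => s.funMap (e.fn n f) x
  RelMap := fun {n} r x => s.RelMap (e.rel n r) x

theorem Ren.str_symm {L L' : FirstOrder.Language.{u, u}} (e : Ren L L') {M : Type u}
    (s : L.Structure M) : e.str (e.symm.str s) = s := by
  cases s with
  | mk fm rm =>
    show FirstOrder.Language.Structure.mk
      (fun {n} (f : L.Functions n) x => fm ((e.fn n).symm (e.fn n f)) x)
      (fun {n} (r : L.Relations n) x => rm ((e.rel n).symm (e.rel n r)) x) = _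
    simp only [Equiv.symm_apply_apply]

/-- substructures are the same -/
def Ren.sub {L L' : FirstOrder.Language.{u, u}} (e : Ren L L') {M : Type u}
    (s : L'.Structure M) (S : L'.Substructure M) : @FirstOrder.Language.Substructure L M (e.str s) :=
  @FirstOrder.Language.Substructure.mk L M (e.str s) S.carrier
    (fun {n} f => S.fun_mem (e.fn n f))

/-- substructures are the same -/
def Ren.bus {L L' : FirstOrder.Language.{u, u}} (e : Ren L L') {M : Type u}
    (s : L'.Structure M) (S : @FirstOrder.Language.Substructure L M (e.str s)) :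
    L'.Substructure M where
  carrier := @FirstOrder.Language.Substructure.carrier L M (e.str s) S
  fun_mem := by
    intro n f x hx
    have h := @FirstOrder.Language.Substructure.fun_mem L M (e.str s) S n ((e.fn n).symm f) x hx
    have h2 : (e.str s).funMap ((e.fn n).symm f) x = s.funMap f x := by
      show s.funMap (e.fn n ((e.fn n).symm f)) x = _
      rw [Equiv.apply_symm_apply]
    exact h2 ▸ h

/-- embeddings are the same -/
def Ren.emb {L L' : FirstOrder.Language.{u, u}} (e : Ren L L') {M N : Type u}
    (s : L'.Structure M) (t : L'.Structure N) (f : M ↪[L'] N) :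
    @FirstOrder.Language.Embedding L M N (e.str s) (e.str t) :=
  @FirstOrder.Language.Embedding.mk L M N (e.str s) (e.str t) f.toEmbedding
    (fun {n} g x => f.map_fun' (e.fn n g) x) (fun {n} r x => f.map_rel' (e.rel n r) x)

/-- isomorphisms are the same -/
def Ren.iso {L L' : FirstOrder.Language.{u, u}} (e : Ren L L') {M N : Type u}
    (s : L'.Structure M) (t : L'.Structure N) (f : M ≃[L'] N) :
    @FirstOrder.Language.Equiv L M N (e.str s) (e.str t) :=
  @FirstOrder.Language.Equiv.mk L M N (e.str s) (e.str t) f.toEquiv
    (fun {n} g x => f.map_fun' (e.fn n g) x) (fun {n} r x => f.map_rel' (e.rel n r) x)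

/-- the renamed AEC -/
def Ren.aec {L L' : FirstOrder.Language.{u, u}} (e : Ren L L') (K : AEC L) : AEC L' where
  mem := fun M s => @AEC.mem L K M (e.str s)
  le := fun M s S => @AEC.le L K M (e.str s) (e.sub s S)
  mem_of_le := by
    intro M s S h
    exact @AEC.mem_of_le L K M (e.str s) (e.sub s S) h
  mem_iso := by
    intro M N s t f h
    exact @AEC.mem_iso L K M N (e.str s) (e.str t) (e.iso s t f) h
  le_iso := by
    intro M N s t f S h
    exact @AEC.le_iso L K M N (e.str s) (e.str t) (e.iso s t f) (e.sub s S) h
  le_refl := by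
    intro M s h
    exact @AEC.le_refl L K M (e.str s) h
  le_trans := by
    intro M s S T hTS h1 h2
    exact @AEC.le_trans L K M (e.str s) (e.sub s S) (e.sub s T) hTS h1 h2
  coherence := by
    intro M s S T hTS h1 h2
    exact @AEC.coherence L K M (e.str s) (e.sub s S) (e.sub s T) hTS h1 h2
  chain := by
    intro M s ι _ _ _ S h1 h2 h3
    exact @AEC.chain L K M (e.str s) ι _ _ _ (fun i => e.sub s (S i)) h1 h2 h3
  smooth := by
    intro M s ι _ _ _ S h1 h2 h3 T hT
    exact @AEC.smooth L K M (e.str s) ι _ _ _ (fun i => e.sub s (S i)) h1 h2 h3 (e.sub s T) hT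
  exists_ls := by
    obtain ⟨μ, hμ⟩ := K.exists_ls
    refine ⟨μ, ?_⟩
    intro M s hM A
    obtain ⟨S, h1, h2, h3⟩ := @hμ M (e.str s) hM A
    exact ⟨e.bus s S, h1, h2, h3⟩

theorem le_congr {L : FirstOrder.Language.{u, u}} (K : AEC L) (M : Type u)
    (s s' : L.Structure M) (hs : s' = s)
    (S : @FirstOrder.Language.Substructure L M s) (S' : @FirstOrder.Language.Substructure L M s')
    (hS : @FirstOrder.Language.Substructure.carrier L M s' S' =
      @FirstOrder.Language.Substructure.carrier L M s S) :
    @AEC.le L K M s' S' ↔ @AEC.le L K M s S := by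
  subst hs
  have : S' = S := by
    cases S; cases S'
    congr
  rw [this]

theorem AEC_ext {L : FirstOrder.Language.{u, u}} {K K' : AEC L}
    (h1 : ∀ (M : Type u) (s : L.Structure M), @AEC.mem L K M s ↔ @AEC.mem L K' M s)
    (h2 : ∀ (M : Type u) (s : L.Structure M) (S : L.Substructure M),
      @AEC.le L K M s S ↔ @AEC.le L K' M s S) : K = K' := by
  cases K with
  | mk mem le a b c d f g h i j =>
    cases K' with
    | mk mem' le' a' b' c' d' f' g' h' i' j' =>
      have h3 : @mem = @mem' := by
        funext M s
        exact propext (h1 M s)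
      have h4 : @le = @le' := by
        funext M s S
        exact propext (h2 M s S)
      subst h3
      subst h4
      rfl

theorem Ren.aec_symm {L L' : FirstOrder.Language.{u, u}} (e : Ren L L') (K : AEC L) :
    e.symm.aec (e.aec K) = K := by
  apply AEC_ext
  · intro M s
    show @AEC.mem L K M (e.str (e.symm.str s)) ↔ _
    rw [e.str_symm]
  · intro M s S
    exact le_congr K M s _ (e.str_symm s) S _ rfl

end Pool.Agent.HE54
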